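import Pool.Agent.Helper6.EC_B.Basic

/-!
# MP_ecc237_nt, Part B, packet D1
-/

open MeasureTheory Filter Topology Set

noncomputable section

namespace EC237.PB.PkD1

theorem integrand (z : ℝ) {s : ℝ} (hs : 0 < s) :
    Real.exp (gam * z) * (Real.exp (-s) * s ^ ((1 + z) - 1)) =
      Real.exp (-s) * Real.exp (2 * z * ((Real.log s + gam) / 2)) := by
  rw [Real.rpow_def_of_pos hs, ← Real.exp_add, ← Real.exp_add, ← Real.exp_add]
  congr 1
  ring

/-- The packet D1. -/
theorem thm : G_D1 := by
  intro z hz
  have hz1 : 0 < 1 + z := by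
    have := (abs_lt.1 hz).1
    linarith
  have hmeas : Measurable (fun a : ℝ => Real.exp (2 * z * a)) := by fun_prop
  constructor
  · rw [rho_integrable_iff _ hmeas]
    refine IntegrableOn.congr_fun
      ((Real.GammaIntegral_convergent hz1).const_mul (Real.exp (gam * z)))
      (fun s hs => integrand z hs) measurableSet_Ioi
  · rw [rho_integral _ hmeas, Real.Gamma_eq_integral hz1, ← integral_const_mul]
    exact (setIntegral_congr_fun measurableSet_Ioi fun s hs => integrand z hs).symm

end EC237.PB.PkD1
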