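import Pool.Agent.Helper6.EC_B.Goals

/-!
# MP_ecc237_nt, Part B, packet T2
-/

open MeasureTheory Filter Topology Set

noncomputable section

namespace EC237.PB.PkT2

/-- The elementary estimate for the constants. -/
theorem const_bound {C m Y s : ℝ} (hC : 0 ≤ C) (hm : 0 ≤ m) (hY : 0 ≤ Y) (hs : 0 ≤ s) :
    s * (C * Real.exp ((s - Y) / 8) * (2 * ((Y + s) ^ 2 + m) + C * Real.exp ((s - Y) / 8))) ≤
      8 * C * (512 + 2 * m + C) * ((1 + Y ^ 2) * Real.exp (-(Y / 8))) * Real.exp (s / 2) := by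
  set E := Real.exp (s / 8) with hE
  set D := Real.exp (-(Y / 8)) with hD
  have hE0 : 0 < E := Real.exp_pos _
  have hD0 : 0 < D := Real.exp_pos _
  have hE1 : 1 ≤ E := Real.one_le_exp (by positivity)
  have hD1 : D ≤ 1 := Real.exp_le_one_iff.2 (by linarith [div_nonneg hY (show (0:ℝ) ≤ 8 by norm_num)])
  have h1 : Real.exp ((s - Y) / 8) = D * E := by
    rw [hD, hE, ← Real.exp_add]; congr 1; ring
  have h2 : Real.exp (s / 2) = E ^ 4 := by
    rw [hE, ← Real.exp_nat_mul]; congr 1; push_cast; ring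
  have hx := Real.add_one_le_exp (s / 8)
  have hs1 : s ≤ 8 * E := by rw [hE]; linarith
  have hs2 : s ^ 2 ≤ 128 * E := by
    have := Real.quadratic_le_exp_of_nonneg (x := s / 8) (by positivity)
    rw [hE]
    nlinarith
  have hEE : E ≤ E ^ 2 := by nlinarith
  have hD2 : D * E ≤ E := by nlinarith
  have h3 : 2 * ((Y + s) ^ 2 + m) + C * (D * E) ≤ (512 + 2 * m + C) * (1 + Y ^ 2) * E ^ 2 := by
    have hE2 : 1 ≤ E ^ 2 := by nlinarith
    have k1 : 2 * (Y + s) ^ 2 ≤ 4 * Y ^ 2 + 4 * s ^ 2 := by nlinarith [sq_nonneg (Y - s)]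
    have k2 : C * (D * E) ≤ C * E ^ 2 := mul_le_mul_of_nonneg_left (hD2.trans hEE) hC
    have k3 : 4 * s ^ 2 ≤ 512 * E ^ 2 := by nlinarith
    have k4 : 4 * Y ^ 2 ≤ 512 * Y ^ 2 * E ^ 2 := by nlinarith [sq_nonneg Y]
    have k5 : 2 * m ≤ 2 * m * E ^ 2 := by nlinarith
    have k6 : 0 ≤ (2 * m + C) * Y ^ 2 * E ^ 2 := by positivity
    nlinarith
  rw [h1, h2]
  have h4 : 0 ≤ C * (D * E) := by positivity
  have h5 : 0 ≤ 2 * ((Y + s) ^ 2 + m) + C * (D * E) := by positivity
  calc s * (C * (D * E) * (2 * ((Y + s) ^ 2 + m) + C * (D * E)))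
      ≤ (8 * E) * (C * (D * E) * (2 * ((Y + s) ^ 2 + m) + C * (D * E))) :=
        mul_le_mul_of_nonneg_right hs1 (mul_nonneg h4 h5)
    _ ≤ (8 * E) * (C * (D * E) * ((512 + 2 * m + C) * (1 + Y ^ 2) * E ^ 2)) := by
        refine mul_le_mul_of_nonneg_left ?_ (by positivity)
        exact mul_le_mul_of_nonneg_left h3 h4
    _ = _ := by ring

theorem pt_bound {N : ℝ → ℝ} {C m Y a a' y : ℝ} (hC : 0 ≤ C) (hm : 0 ≤ m) (hY : 0 ≤ Y)
    (h2 : ∀ z, |N z - (z ^ 2 - m)| ≤ C * Real.exp (-(z / 8))) (hy : y ∈ uIcc Y (Y + a + a')) :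
    |N (y - a) * N (y - a') - ((y - a) ^ 2 - m) * ((y - a') ^ 2 - m)| ≤
      C * Real.exp ((|a| + |a'| - Y) / 8) *
        (2 * ((Y + (|a| + |a'|)) ^ 2 + m) + C * Real.exp ((|a| + |a'| - Y) / 8)) := by
  have ha1 := le_abs_self a
  have ha2 := neg_abs_le a
  have hb1 := le_abs_self a'
  have hb2 := neg_abs_le a'
  have ha0 := abs_nonneg a
  have hb0 := abs_nonneg a'
  set s := |a| + |a'| with hs
  have key : Y - s ≤ y - a ∧ y - a ≤ Y + s ∧ Y - s ≤ y - a' ∧ y - a' ≤ Y + s := by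
    rcases le_total (a + a') 0 with h | h
    · rw [uIcc_of_ge (by linarith)] at hy
      obtain ⟨h3, h4⟩ := hy
      refine ⟨by linarith, by linarith, by linarith, by linarith⟩
    · rw [uIcc_of_le (by linarith)] at hy
      obtain ⟨h3, h4⟩ := hy
      refine ⟨by linarith, by linarith, by linarith, by linarith⟩
  obtain ⟨k1, k2, k3, k4⟩ := key
  have hq : ∀ z, Y - s ≤ z → z ≤ Y + s → |z ^ 2 - m| ≤ (Y + s) ^ 2 + m := by
    intro z hz1 hz2
    have h5 : z ^ 2 ≤ (Y + s) ^ 2 := by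
      apply sq_le_sq'
      · linarith
      · exact hz2
    rw [abs_le]
    constructor
    · nlinarith [sq_nonneg z, sq_nonneg (Y + s)]
    · linarith
  have he : ∀ z, Y - s ≤ z → |N z - (z ^ 2 - m)| ≤ C * Real.exp ((s - Y) / 8) := by
    intro z hz
    refine (h2 z).trans (mul_le_mul_of_nonneg_left (Real.exp_le_exp.2 ?_) hC)
    linarith
  set e := C * Real.exp ((s - Y) / 8) with hedef
  set q := (Y + s) ^ 2 + m with hqdef
  have e1 := he _ k1
  have e2 := he _ k3
  have q1 := hq _ k1 k2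
  have q2 := hq _ k3 k4
  have he0 : 0 ≤ e := (abs_nonneg _).trans e1
  have hq0 : 0 ≤ q := (abs_nonneg _).trans q1
  have hsplit : N (y - a) * N (y - a') - ((y - a) ^ 2 - m) * ((y - a') ^ 2 - m) =
      (N (y - a) - ((y - a) ^ 2 - m)) * ((N (y - a') - ((y - a') ^ 2 - m)) + ((y - a') ^ 2 - m)) +
        ((y - a) ^ 2 - m) * (N (y - a') - ((y - a') ^ 2 - m)) := by ring
  rw [hsplit]
  calc _ ≤ |(N (y - a) - ((y - a) ^ 2 - m)) *
          ((N (y - a') - ((y - a') ^ 2 - m)) + ((y - a') ^ 2 - m))| +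
        |((y - a) ^ 2 - m) * (N (y - a') - ((y - a') ^ 2 - m))| := abs_add_le _ _
    _ ≤ e * (e + q) + q * e := by
        rw [abs_mul, abs_mul]
        refine add_le_add ?_ ?_
        · refine mul_le_mul e1 ?_ (abs_nonneg _) he0
          exact (abs_add_le _ _).trans (add_le_add e2 q2)
        · exact mul_le_mul q1 e2 (abs_nonneg _) hq0
    _ = e * (2 * q + e) := by ring

theorem intN {N : ℝ → ℝ} (hN : Measurable N) {C : ℝ} (h1 : ∀ z, |N z| ≤ C * Real.exp (z / 8))
    (a a' u v : ℝ) : IntervalIntegrable (fun y => N (y - a) * N (y - a')) volume u v := by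
  have hg : IntervalIntegrable (fun y => (C * Real.exp ((y - a) / 8)) *
      (C * Real.exp ((y - a') / 8))) volume u v :=
    Continuous.intervalIntegrable (by fun_prop) _ _
  refine hg.mono_fun ?_ (Eventually.of_forall fun y => ?_)
  · refine Measurable.aestronglyMeasurable ?_
    exact (hN.comp (measurable_id.sub_const a)).mul (hN.comp (measurable_id.sub_const a'))
  · simp only [norm_mul]
    refine mul_le_mul ?_ ?_ (norm_nonneg _) (by positivity)
    · rw [Real.norm_eq_abs, ← norm_mul, Real.norm_eq_abs]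
      exact (h1 _).trans (le_abs_self _)
    · rw [Real.norm_eq_abs, ← norm_mul, Real.norm_eq_abs]
      exact (h1 _).trans (le_abs_self _)

/-- The packet T2. -/
theorem thm : G_T2 := by
  intro ρ N hyp
  have := hyp.prob
  obtain ⟨C1, h1⟩ := hyp.b1
  obtain ⟨C, h2⟩ := hyp.b2
  set m := ∫ a, a ^ 2 ∂ρ with hm
  have hm0 : 0 ≤ m := integral_nonneg fun a => sq_nonneg a
  have hC : 0 ≤ C := by
    have := (abs_nonneg _).trans (h2 0)
    simpa using this
  have hint : Integrable (fun p : ℝ × ℝ => Real.exp (|p.1| / 2) * Real.exp (|p.2| / 2))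
      (ρ.prod ρ) := hyp.exp.mul_prod hyp.exp
  set J := ∫ p : ℝ × ℝ, Real.exp (|p.1| / 2) * Real.exp (|p.2| / 2) ∂(ρ.prod ρ) with hJ
  set K := 8 * C * (512 + 2 * m + C) with hK
  have hbound : ∀ Y : ℝ, 0 ≤ Y →
      ‖∫ p, (FY N Y p - FY (fun z => z ^ 2 - m) Y p) ∂(ρ.prod ρ)‖ ≤
        K * ((1 + Y ^ 2) * Real.exp (-(Y / 8))) * J := by
    intro Y hY
    rw [hJ, ← integral_const_mul]
    refine norm_integral_le_of_norm_le (hint.const_mul _) (Eventually.of_forall fun p => ?_)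
    obtain ⟨a, a'⟩ := p
    unfold FY
    simp only
    rw [← intervalIntegral.integral_sub (intN hyp.meas h1 _ _ _ _)
      (Continuous.intervalIntegrable (by fun_prop) _ _)]
    have h3 : ∀ y ∈ uIoc Y (Y + a + a'),
        ‖N (y - a) * N (y - a') - ((y - a) ^ 2 - m) * ((y - a') ^ 2 - m)‖ ≤
        C * Real.exp ((|a| + |a'| - Y) / 8) *
        (2 * ((Y + (|a| + |a'|)) ^ 2 + m) + C * Real.exp ((|a| + |a'| - Y) / 8)) := by
      intro y hy
      exact pt_bound hC hm0 hY h2 (uIoc_subset_uIcc hy)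
    refine (intervalIntegral.norm_integral_le_of_norm_le_const h3).trans ?_
    have h4 : |Y + a + a' - Y| ≤ |a| + |a'| := by
      rw [show Y + a + a' - Y = a + a' by ring]
      exact abs_add_le a a'
    have h5 : Real.exp (|a| / 2) * Real.exp (|a'| / 2) = Real.exp ((|a| + |a'|) / 2) := by
      rw [← Real.exp_add]; congr 1; ring
    rw [h5]
    refine le_trans ?_ (const_bound hC hm0 hY (show 0 ≤ |a| + |a'| by positivity))
    rw [mul_comm]
    exact mul_le_mul_of_nonneg_right h4 (by positivity)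
  refine squeeze_zero_norm' (a := fun Y => K * ((1 + Y ^ 2) * Real.exp (-(Y / 8))) * J)
    ((eventually_ge_atTop 0).mono fun Y hY => hbound Y hY) ?_
  have h8 : Tendsto (fun Y : ℝ => Y / 8) atTop atTop :=
    tendsto_id.atTop_div_const (by norm_num)
  have h6 := (Real.tendsto_pow_mul_exp_neg_atTop_nhds_zero 2).comp h8
  have h7 := (Real.tendsto_pow_mul_exp_neg_atTop_nhds_zero 0).comp h8
  have h9 : Tendsto (fun Y : ℝ => (1 + Y ^ 2) * Real.exp (-(Y / 8))) atTop (𝓝 0) := by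
    have h10 := h7.add (h6.const_mul 64)
    simp only [mul_zero, add_zero] at h10
    refine h10.congr fun Y => ?_
    simp only [Function.comp]
    ring
  have h11 := (h9.const_mul K).mul_const J
  simpa using h11

end EC237.PB.PkT2
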